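import Pool.Agent.H65.CM4.Targets1

set_option autoImplicit false

open MeasureTheory Set Filter NumberField NumberField.InfinitePlace Pool.Agent.H65.CM4
open scoped Real

namespace Pool.Agent.H45.CM4

variable (k : Type) [Field k] [NumberField k] [IsTotallyReal k]

theorem det_trans {k : Type} [Field k] [NumberField k] {u v w : V2 k} (hv : v ≠ 0)
    (h1 : det u v = 0) (h2 : det v w = 0) : det u w = 0 := by
  have e1 : v.1 * det u w = u.1 * det v w + w.1 * det u v := by
    simp only [det]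
    ring
  have e2 : v.2 * det u w = u.2 * det v w + w.2 * det u v := by
    simp only [det]
    ring
  rw [h1, h2, mul_zero, mul_zero, add_zero] at e1 e2
  by_contra h
  exact hv (Prod.ext ((mul_eq_zero.1 e1).resolve_right h) ((mul_eq_zero.1 e2).resolve_right h))

theorem det_symm {k : Type} [Field k] [NumberField k] {u v : V2 k} (h : det u v = 0) :
    det v u = 0 := by
  have e : det v u = -det u v := by
    simp only [det]
    ring
  rw [e, h, neg_zero]

theorem exists_rep (hEMB : T_EMB k) {C : ℝ}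
    (hC : ∀ I : Ideal (𝓞 k), I ≠ ⊥ → ∃ x ∈ I, x ≠ 0 ∧ Nr (x : k) ≤ C * nm I) (u : V2 k)
    (hu : u ≠ 0) : ∃ w : V2 k, w ≠ 0 ∧ det u w = 0 ∧
      nm (Ideal.span {w.1, w.2} : Ideal (𝓞 k)) ≤ C := by
  obtain ⟨-, -, -, -, -, -, -, -, hspan, -, -, -⟩ := hEMB
  set I : Ideal (𝓞 k) := Ideal.span {u.1, u.2} with hI
  have hu1 : u.1 ∈ I := Ideal.subset_span (by simp)
  have hu2 : u.2 ∈ I := Ideal.subset_span (by simp)
  have hI0 : I ≠ ⊥ := by
    intro h
    rw [h] at hu1 hu2
    exact hu (Prod.ext (Ideal.mem_bot.1 hu1) (Ideal.mem_bot.1 hu2))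
  have hIn : Ideal.absNorm I ≠ 0 := by
    rw [Ne, Ideal.absNorm_eq_zero_iff]
    exact hI0
  set c : 𝓞 k := (Ideal.absNorm I : 𝓞 k) with hc
  have hc0 : c ≠ 0 := by
    rw [hc]
    exact_mod_cast hIn
  have hcI : c ∈ I := Ideal.absNorm_mem I
  obtain ⟨J, hJ⟩ : I ∣ Ideal.span {c} := Ideal.dvd_span_singleton.2 hcI
  have hJ0 : J ≠ ⊥ := by
    intro h
    rw [h, Ideal.mul_bot, Ideal.span_singleton_eq_bot] at hJ
    exact hc0 hJ
  obtain ⟨x, hxJ, hx0, hx⟩ := hC J hJ0
  have key : ∀ y ∈ I, ∃ w : 𝓞 k, c * w = x * y := by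
    intro y hy
    have h1 : x * y ∈ Ideal.span {c} := by
      rw [hJ, mul_comm x y]
      exact Ideal.mul_mem_mul hy hxJ
    obtain ⟨w, hw⟩ := Ideal.mem_span_singleton'.1 h1
    exact ⟨w, by rw [mul_comm, hw]⟩
  obtain ⟨w1, hw1⟩ := key u.1 hu1
  obtain ⟨w2, hw2⟩ := key u.2 hu2
  refine ⟨(w1, w2), ?_, ?_, ?_⟩
  · intro h
    have h1 : w1 = 0 := congrArg Prod.fst h
    have h2 : w2 = 0 := congrArg Prod.snd h
    rw [h1, mul_zero] at hw1
    rw [h2, mul_zero] at hw2
    exact hu (Prod.ext ((mul_eq_zero.1 hw1.symm).resolve_left hx0)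
      ((mul_eq_zero.1 hw2.symm).resolve_left hx0))
  · have h1 : c * det u (w1, w2) = 0 := by
      have h2 : c * det u (w1, w2) = u.1 * (c * w2) - u.2 * (c * w1) := by
        simp only [det]
        ring
      rw [h2, hw1, hw2]
      ring
    exact (mul_eq_zero.1 h1).resolve_left hc0
  · have h1 : Ideal.span {w1, w2} * Ideal.span {c} = Ideal.span {x} * I := by
      rw [hI, Ideal.span_mul_span', Ideal.span_mul_span', Set.mul_singleton, Set.singleton_mul,
        Set.image_pair, Set.image_pair, ← hw1, ← hw2, mul_comm w1 c, mul_comm w2 c]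
    have h2 := congrArg Ideal.absNorm h1
    rw [map_mul, map_mul, hJ, map_mul] at h2
    have h3 : Ideal.absNorm (Ideal.span {w1, w2} : Ideal (𝓞 k)) * Ideal.absNorm J =
        Ideal.absNorm (Ideal.span {x} : Ideal (𝓞 k)) := by
      have h4 : Ideal.absNorm I * (Ideal.absNorm (Ideal.span {w1, w2} : Ideal (𝓞 k)) *
          Ideal.absNorm J) = Ideal.absNorm I * Ideal.absNorm (Ideal.span {x} : Ideal (𝓞 k)) := by
        linarith [h2]
      exact Nat.eq_of_mul_eq_mul_left (Nat.pos_of_ne_zero hIn) h4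
    have h5 : nm (Ideal.span {w1, w2} : Ideal (𝓞 k)) * nm J ≤ C * nm J := by
      refine le_trans (le_of_eq ?_) hx
      rw [← hspan x]
      unfold nm
      exact_mod_cast h3
    have h6 : 0 < nm J := by
      unfold nm
      have h7 : Ideal.absNorm J ≠ 0 := by
        rw [Ne, Ideal.absNorm_eq_zero_iff]
        exact hJ0
      exact_mod_cast Nat.pos_of_ne_zero h7
    exact le_of_mul_le_mul_right h5 h6

theorem pf_CHX (hEMB : T_EMB k) (hMKI : T_MKI k) : T_CHX k := by
  classical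
  obtain ⟨C, hC1, hC⟩ := hMKI
  choose f hf0 hfd hfn using exists_rep k hEMB hC
  let S : Setoid {u : V2 k // u ≠ 0} :=
    { r := fun u v => det u.1 v.1 = 0
      iseqv :=
        { refl := fun u => by
            simp only [det]
            ring
          symm := fun h => det_symm h
          trans := fun {a b c} h1 h2 => det_trans b.2 h1 h2 } }
  let H : AddSubgroup k := (algebraMap (𝓞 k) k).toAddMonoidHom.range
  refine ⟨{ W := Set.range fun q : Quotient S => f q.out.1 q.out.2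
            C0 := ⌈C⌉₊
            U := Set.range fun q : k ⧸ H => q.out
            pos := Nat.ceil_pos.2 (by linarith)
            ne := ?_
            cont := ?_
            uniq := ?_
            ru := ?_ }⟩
  · rintro w ⟨q, rfl⟩
    exact hf0 _ _
  · rintro w ⟨q, rfl⟩
    have h1 := hfn q.out.1 q.out.2
    have h2 := le_trans h1 (Nat.le_ceil C)
    unfold nm at h2
    exact_mod_cast h2
  · intro u hu
    have h1 : det ((Quotient.mk S ⟨u, hu⟩).out).1 u = 0 := Quotient.mk_out (s := S) ⟨u, hu⟩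
    refine ⟨f (Quotient.mk S ⟨u, hu⟩).out.1 (Quotient.mk S ⟨u, hu⟩).out.2, ⟨⟨_, rfl⟩, ?_⟩, ?_⟩
    · exact det_trans (Quotient.mk S ⟨u, hu⟩).out.2 (det_symm h1) (hfd _ _)
    · rintro w ⟨⟨q, rfl⟩, hq⟩
      have h2 : det u q.out.1 = 0 := det_trans (hf0 _ _) hq (det_symm (hfd q.out.1 q.out.2))
      have h3 : q = Quotient.mk S ⟨u, hu⟩ := by
        rw [← Quotient.out_eq q]
        exact (Quotient.sound (s := S) (a := ⟨u, hu⟩) (b := q.out) h2).symm
      change f q.out.1 q.out.2 = _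
      rw [h3]
  · intro x
    have hmem : ∀ y : k, y ∈ H ↔ Int' y := by
      intro y
      rfl
    have h1 : ∀ q : k ⧸ H, (QuotientAddGroup.mk q.out : k ⧸ H) = q := fun q => Quotient.out_eq q
    refine ⟨(QuotientAddGroup.mk x : k ⧸ H).out, ⟨⟨_, rfl⟩, ?_⟩, ?_⟩
    · rw [← hmem, sub_eq_neg_add, ← QuotientAddGroup.eq, h1]
    · rintro a ⟨⟨q, rfl⟩, ha⟩
      rw [← hmem, sub_eq_neg_add, ← QuotientAddGroup.eq, h1] at ha
      change q.out = _
      rw [ha]

end Pool.Agent.H45.CM4
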