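import Pool.Agent.H89.CM4.Targets2

/-!
`MP_52e316_nt`, fourth moment over the CM extensions: row ECC (the Epstein zeta functions are
holomorphic along holomorphic curves of parameters).
-/

set_option autoImplicit false

open MeasureTheory Set Filter NumberField NumberField.InfinitePlace Pool.Agent.H65.CM4
  Pool.Agent.H89.CM4
open scoped Real

namespace Pool.Agent.H45.CM4

variable (k : Type) [Field k] [NumberField k] [IsTotallyReal k]

omit [IsTotallyReal k] in
theorem ECC_isOpen (B K r t : ℝ) (X Y : ℂ → Pl k → ℂ) (hX : ∀ v, Differentiable ℂ (fun w => X w v))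
    (hY : ∀ v, Differentiable ℂ (fun w => Y w v)) : IsOpen {w : ℂ | Rg B K r t (X w) (Y w)} := by
  have e : {w : ℂ | Rg B K r t (X w) (Y w)} = ⋂ v : Pl k,
      ({w | |(X w v).re| < B * r} ∩ ({w | r / B < (Y w v).re} ∩ ({w | (Y w v).re < B * r} ∩
        ({w | K * (1 + |t|) * |(X w v).im| < r} ∩ {w | K * (1 + |t|) * |(Y w v).im| < r})))) := by
    ext w
    simp only [mem_iInter]
    rfl
  rw [e]
  refine isOpen_iInter_of_finite fun v => ?_
  have hx : Continuous fun w => (X w v).re := Complex.continuous_re.comp (hX v).continuous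
  have hy : Continuous fun w => (Y w v).re := Complex.continuous_re.comp (hY v).continuous
  have hx' : Continuous fun w => (X w v).im := Complex.continuous_im.comp (hX v).continuous
  have hy' : Continuous fun w => (Y w v).im := Complex.continuous_im.comp (hY v).continuous
  exact (isOpen_lt hx.abs continuous_const).inter
    ((isOpen_lt continuous_const hy).inter ((isOpen_lt hy continuous_const).inter
      ((isOpen_lt (continuous_const.mul hx'.abs) continuous_const).inter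
        (isOpen_lt (continuous_const.mul hy'.abs) continuous_const))))

omit [IsTotallyReal k] in
theorem ECC_ne {B K r t : ℝ} {x y : Pl k → ℂ} (hB : 1 ≤ B) (hr : 0 < r) (h : Rg B K r t x y)
    (v : Pl k) : y v ≠ 0 := by
  intro h0
  have h1 := (h v).2.1
  rw [h0, Complex.zero_re] at h1
  have : 0 < r / B := by positivity
  linarith

omit [IsTotallyReal k] in
theorem ECC_rg {B K r t t' : ℝ} {x y : Pl k → ℂ} (ht : |t'| = |t|) (h : Rg B K r t x y) :
    Rg B K r t' x y := by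
  intro v
  rw [ht]
  exact h v

theorem ECC_qn (X Y : ℂ → Pl k → ℂ) (hX : ∀ v, Differentiable ℂ (fun w => X w v))
    (hY : ∀ v, Differentiable ℂ (fun w => Y w v)) (u : V2 k) (w : ℂ) (h : ∀ v, Y w v ≠ 0) :
    DifferentiableAt ℂ (fun w => qn (X w) (Y w) u) w := by
  unfold qn
  apply DifferentiableAt.fun_finset_prod
  intro v _
  unfold qc
  have h1 : DifferentiableAt ℂ (fun w => X w v) w := hX v w
  have h2 : DifferentiableAt ℂ (fun w => Y w v) w := hY v w
  have h3 : (2 : ℂ) * Y w v ≠ 0 := mul_ne_zero two_ne_zero (h v)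
  exact (((h1.const_mul _).const_add _).pow 2 |>.add ((h2.const_mul _).pow 2)).div
    (h2.const_mul 2) h3

open Classical in
theorem ECC_sum (hKCB : T_KCB k) (hKCD : T_KCD k) (hLSM : T_LSM k) (hNRD : T_NRD k)
    {B K c C : ℝ} (hB : 1 ≤ B) (hc : 0 < c) (hc1 : c ≤ 1)
    (hQ : ∀ (r t : ℝ) (x y : Pl k → ℂ) (u : V2 k), 0 < r → Rg B K r t x y → u ≠ 0 →
      0 < (qn x y u).re ∧ 10 * (1 + |t|) * |(qn x y u).im| ≤ (qn x y u).re ∧
        c * nn r u ≤ (qn x y u).re ∧ (qn x y u).re ≤ C * nn r u)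
    (r m C₁ : ℝ) (M : La k) (s : ℂ) (X Y : ℂ → Pl k → ℂ) (ζ : ℂ) (hr : 0 < r) (hM : ix M ≠ 0)
    (hm : 0 < m) (hC₁ : 1 ≤ C₁)
    (hdet : ∀ u ∈ M, ∀ v ∈ M, det u v ≠ 0 → m ≤ C₁ * Nr (det u v : k))
    (hs : |s.re - 1 / 2| ≤ 1 / 8) (hX : ∀ v, Differentiable ℂ (fun w => X w v))
    (hY : ∀ v, Differentiable ℂ (fun w => Y w v)) (hζ : Rg B K r s.im (X ζ) (Y ζ)) :
    DifferentiableAt ℂ (fun w => ∑' u : V2 k, if u ∈ M ∧ u ∈ Fo k then
      Kc (dg k) s (qn (X w) (Y w) u / (m : ℂ)) else 0) ζ := by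
  obtain ⟨C2, j, hC2, hK⟩ := hKCB (1 / 8) (by norm_num) le_rfl
  obtain ⟨C3, hC3, hS⟩ := hLSM (1 / 8) C₁ (by norm_num) le_rfl hC₁
  obtain ⟨hsum, -⟩ := hS r m M hr hM hm hdet
  set a : ℝ := 1 / 2 + 2 * (1 / 8) with ha
  set D : ℝ := C2 * ht k j s.im * c ^ (-a) * c ^ (-(3 : ℝ)) with hD
  have hht : 0 ≤ ht k j s.im := by unfold ht; positivity
  set g : V2 k → ℝ := fun u => if u ∈ M ∧ u ∈ Fo k then
      (nn r u / m) ^ (-a) * (1 + nn r u / m) ^ (-(3 : ℝ)) else 0 with hg
  have hMg : Summable fun v => D * g v := hsum.mul_left D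
  have harg : ∀ (w : ℂ) (u : V2 k), Rg B K r s.im (X w) (Y w) → u ≠ 0 →
      0 < (qn (X w) (Y w) u / (m : ℂ)).re ∧
        10 * (1 + |s.im|) * |(qn (X w) (Y w) u / (m : ℂ)).im| ≤ (qn (X w) (Y w) u / (m : ℂ)).re ∧
        c * (nn r u / m) ≤ (qn (X w) (Y w) u / (m : ℂ)).re := by
    intro w u hw hu
    obtain ⟨h1, h2, h3, -⟩ := hQ r s.im _ _ u hr hw hu
    rw [Complex.div_ofReal_re, Complex.div_ofReal_im]
    refine ⟨by positivity, ?_, ?_⟩
    · rw [abs_div, abs_of_pos hm, ← mul_div_assoc]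
      gcongr
    · rw [← mul_div_assoc]
      gcongr
  have hbd : ∀ (u : V2 k) (w : ℂ), w ∈ {w : ℂ | Rg B K r s.im (X w) (Y w)} →
      ‖(if u ∈ M ∧ u ∈ Fo k then Kc (dg k) s (qn (X w) (Y w) u / (m : ℂ)) else 0 : ℂ)‖
        ≤ D * g u := by
    intro u w hw
    by_cases hv : u ∈ M ∧ u ∈ Fo k
    · rw [if_pos hv]
      have hu0 : u ≠ 0 := hv.2.1
      obtain ⟨h1, h2, h3⟩ := harg w u hw hu0
      set z := qn (X w) (Y w) u / (m : ℂ) with hz
      have h4 := hK s z hs h1 h2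
      have hnn : 0 < nn r u := ((hNRD r u u hr).2.1 hu0).1
      have hcn : 0 < c * (nn r u / m) := by positivity
      have h5 : z.re ^ (-a) ≤ c ^ (-a) * (nn r u / m) ^ (-a) := by
        rw [← Real.mul_rpow hc.le (by positivity)]
        exact Real.rpow_le_rpow_of_nonpos hcn h3 (by rw [ha]; norm_num)
      have h6 : (1 + z.re) ^ (-(3 : ℝ)) ≤ c ^ (-(3 : ℝ)) * (1 + nn r u / m) ^ (-(3 : ℝ)) := by
        rw [← Real.mul_rpow hc.le (by positivity)]
        refine Real.rpow_le_rpow_of_nonpos (by positivity) ?_ (by norm_num)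
        rw [mul_add, mul_one]
        exact add_le_add hc1 h3
      have hgv : g u = (nn r u / m) ^ (-a) * (1 + nn r u / m) ^ (-(3 : ℝ)) := by
        rw [hg]
        exact if_pos hv
      have hz3 : 0 ≤ (1 + z.re) ^ (-(3 : ℝ)) := Real.rpow_nonneg (by positivity) _
      have hz4 : 0 ≤ (nn r u / m) ^ (-a) := Real.rpow_nonneg (by positivity) _
      rw [hgv, hD]
      refine h4.trans ?_
      calc C2 * ht k j s.im * z.re ^ (-a) * (1 + z.re) ^ (-(3 : ℝ))
          ≤ C2 * ht k j s.im * (c ^ (-a) * (nn r u / m) ^ (-a)) *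
            (c ^ (-(3 : ℝ)) * (1 + nn r u / m) ^ (-(3 : ℝ))) := by
            have hA : C2 * ht k j s.im * z.re ^ (-a) ≤
                C2 * ht k j s.im * (c ^ (-a) * (nn r u / m) ^ (-a)) :=
              mul_le_mul_of_nonneg_left h5 (mul_nonneg hC2 hht)
            exact mul_le_mul hA h6 hz3 (mul_nonneg (mul_nonneg hC2 hht)
              (mul_nonneg (Real.rpow_nonneg hc.le _) hz4))
        _ = _ := by ring
    · rw [if_neg hv, norm_zero]
      have : g u = 0 := by
        rw [hg]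
        exact if_neg hv
      rw [this, mul_zero]
  have hU := ECC_isOpen k B K r s.im X Y hX hY
  have h := Complex.differentiableOn_tsum_of_summable_norm
    (F := fun (u : V2 k) (w : ℂ) =>
      (if u ∈ M ∧ u ∈ Fo k then Kc (dg k) s (qn (X w) (Y w) u / (m : ℂ)) else 0 : ℂ)) hMg ?_ hU
    hbd
  · exact h.differentiableAt (hU.mem_nhds hζ)
  · intro u
    by_cases hv : u ∈ M ∧ u ∈ Fo k
    · simp only [if_pos hv]
      intro w hw
      obtain ⟨h1, h2, -⟩ := harg w u hw hv.2.1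
      have h3 := hKCD s _ hs h1 h2
      have h4 : DifferentiableAt ℂ (fun w => qn (X w) (Y w) u / (m : ℂ)) w :=
        (ECC_qn k X Y hX hY u w (fun v => ECC_ne k hB hr hw v)).div_const _
      exact (DifferentiableAt.comp (g := fun z => Kc (dg k) s z) w h3 h4).differentiableWithinAt
    · simp only [if_neg hv]
      exact differentiableOn_const _

theorem pf_ECC (hKCB : T_KCB k) (hKCD : T_KCD k) (hQCB : T_QCB k) (hLSM : T_LSM k)
    (hBIX : T_BIX k) (hDUL : T_DUL k) (hMIN : T_MIN k) (hNRD : T_NRD k) : T_ECC k := by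
  classical
  intro B hB
  obtain ⟨K, c, C, hK, hc, hc1, hC, hQ⟩ := hQCB B hB
  obtain ⟨CD, hCD, hD⟩ := hDUL
  refine ⟨K, hK, ?_⟩
  intro r M s X Y ζ hr hM hs hX hY hζ
  have hm : (0 : ℝ) < ix M := by exact_mod_cast Nat.pos_of_ne_zero hM
  have hdk : (0 : ℝ) < dk k := by
    have : dk k ≠ 0 := by
      unfold dk
      exact Int.natAbs_ne_zero.2 (discr_ne_zero k)
    exact_mod_cast Nat.pos_of_ne_zero this
  obtain ⟨hD1, -, hD3⟩ := hD M hM
  have h1 := ECC_sum k hKCB hKCD hLSM hNRD hB hc hc1 hQ r (ix M) 1 M s X Y ζ hr hM hm le_rfl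
    (fun u hu v hv huv => by rw [one_mul]; exact hBIX.1 M hM u hu v hv huv) hs hX hY hζ
  set m2 : ℝ := ((dk k * ix M : ℕ) : ℝ) ^ (2 * dg k) / ix M with hm2
  have hm2p : 0 < m2 := by
    rw [hm2]
    push_cast
    positivity
  have him : |(1 - s).im| = |s.im| := by
    rw [Complex.sub_im, Complex.one_im, zero_sub, abs_neg]
  have hre : |(1 - s).re - 1 / 2| ≤ 1 / 8 := by
    rw [Complex.sub_re, Complex.one_re]
    have : (1 - s.re - 1 / 2) = -(s.re - 1 / 2) := by ring
    rw [this, abs_neg]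
    exact hs
  have h2 := ECC_sum k hKCB hKCD hLSM hNRD hB hc hc1 hQ r m2 CD (du M) (1 - s) X Y ζ hr hD1 hm2p
    hCD (fun u hu v hv huv => by
      rw [hm2, div_le_iff₀ hm]
      have := hD3 u hu v hv huv
      linarith) hre hX hY (ECC_rg k him hζ)
  have h3 := h1.add (h2.const_mul ((1 / dk k : ℝ) : ℂ))
  refine h3.congr_of_eventuallyEq (Eventually.of_forall fun w => ?_)
  have e : ∀ u : V2 k, (ix M : ℂ) * qn (X w) (Y w) u / ((dk k * ix M : ℕ) : ℂ) ^ (2 * dg k) =
      qn (X w) (Y w) u / (m2 : ℂ) := by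
    intro u
    have hmC : (ix M : ℂ) ≠ 0 := by exact_mod_cast hm.ne'
    have hdC : (((dk k * ix M : ℕ) : ℂ)) ^ (2 * dg k) ≠ 0 := by
      apply pow_ne_zero
      exact_mod_cast (mul_pos hdk hm).ne'
    rw [hm2]
    push_cast
    push_cast at hdC
    field_simp
  simp only [Ec, e]
  rfl

end Pool.Agent.H45.CM4
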