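import Pool.Agent.H89.CM4.Targets2

/-!
# A sum over the vectors of a lattice modulo the units
-/

set_option autoImplicit false

open MeasureTheory Set Filter NumberField NumberField.InfinitePlace Pool.Agent.H65.CM4 Pool.Agent.H89.CM4
open scoped Real

namespace Pool.Agent.H45.CM4

namespace LSM

theorem nn_pos {k : Type} [Field k] [NumberField k] [IsTotallyReal k] (r : ℝ) (u : V2 k)
    (hr : 0 < r) (hu : u ≠ 0) : 0 < nn r u := by
  unfold nn
  refine Finset.prod_pos fun v _ => ?_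
  have hne : ∀ x : 𝓞 k, x ≠ 0 → rv v (x : k) ≠ 0 := by
    intro x hx
    rw [Ne, map_eq_zero]
    exact_mod_cast hx
  unfold nr
  rcases eq_or_ne u.1 0 with h1 | h1
  · have h2 : u.2 ≠ 0 := fun h2 => hu (Prod.ext h1 h2)
    have h3 := hne _ h2
    positivity
  · have h3 := hne _ h1
    positivity

/-- the bound of a shell, `E = 2 ^ i` -/
theorem shell (κ C₁ τ E : ℝ) (hκ : 0 < κ) (hC : 1 ≤ C₁) (hτ : 0 < τ) (hE : 1 ≤ E) :
    (Real.sqrt (2 * E) + 2 * C₁ * (E * τ)) *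
      ((E * τ) ^ (-(1 / 2 + 2 * κ)) * (1 + E * τ) ^ (-(3 : ℝ))) ≤
      4 * C₁ * τ ^ (-(1 / 2 + 2 * κ)) * E ^ (-(2 * κ)) := by
  have hE0 : 0 < E := lt_of_lt_of_le one_pos hE
  have hX : 0 < E * τ := mul_pos hE0 hτ
  have hta : 0 < τ ^ (-(1 / 2 + 2 * κ)) := Real.rpow_pos_of_pos hτ _
  have hek : 0 < E ^ (-(2 * κ)) := Real.rpow_pos_of_pos hE0 _
  have h1X : (1 + E * τ) ^ (-(3 : ℝ)) ≤ 1 :=
    Real.rpow_le_one_of_one_le_of_nonpos (by linarith) (by norm_num)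
  have h1X' : E * τ * (1 + E * τ) ^ (-(3 : ℝ)) ≤ 1 := by
    have h2 : (1 + E * τ) ^ (-(3 : ℝ)) ≤ (1 + E * τ) ^ (-(1 : ℝ)) :=
      Real.rpow_le_rpow_of_exponent_le (by linarith) (by norm_num)
    rw [Real.rpow_neg_one] at h2
    have h3 : E * τ * (1 + E * τ)⁻¹ ≤ 1 := by
      rw [← div_eq_mul_inv, div_le_one (by linarith)]
      linarith
    exact le_trans (mul_le_mul_of_nonneg_left h2 hX.le) h3
  have s2 : (E * τ) ^ (-(1 / 2 + 2 * κ)) = E ^ (-(1 / 2 + 2 * κ)) * τ ^ (-(1 / 2 + 2 * κ)) :=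
    Real.mul_rpow hE0.le hτ.le
  have hxa : 0 ≤ (E * τ) ^ (-(1 / 2 + 2 * κ)) := Real.rpow_nonneg hX.le _
  -- the first part
  have p1 : Real.sqrt (2 * E) * ((E * τ) ^ (-(1 / 2 + 2 * κ)) * (1 + E * τ) ^ (-(3 : ℝ))) ≤
      2 * (τ ^ (-(1 / 2 + 2 * κ)) * E ^ (-(2 * κ))) := by
    have s1 : Real.sqrt (2 * E) ≤ 2 * E ^ (1 / 2 : ℝ) := by
      rw [Real.sqrt_mul (by norm_num), ← Real.sqrt_eq_rpow]
      have : Real.sqrt 2 ≤ 2 := by
        rw [Real.sqrt_le_left (by norm_num)]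
        norm_num
      exact mul_le_mul_of_nonneg_right this (Real.sqrt_nonneg _)
    have s3 : E ^ (1 / 2 : ℝ) * E ^ (-(1 / 2 + 2 * κ)) = E ^ (-(2 * κ)) := by
      rw [← Real.rpow_add hE0]
      congr 1
      ring
    calc Real.sqrt (2 * E) * ((E * τ) ^ (-(1 / 2 + 2 * κ)) * (1 + E * τ) ^ (-(3 : ℝ)))
        ≤ (2 * E ^ (1 / 2 : ℝ)) * ((E * τ) ^ (-(1 / 2 + 2 * κ)) * 1) := by
          refine mul_le_mul s1 ?_ (by positivity) (by positivity)
          exact mul_le_mul_of_nonneg_left h1X hxa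
      _ = 2 * (τ ^ (-(1 / 2 + 2 * κ)) * (E ^ (1 / 2 : ℝ) * E ^ (-(1 / 2 + 2 * κ)))) := by
          rw [s2]
          ring
      _ = _ := by rw [s3]
  -- the second part
  have p2 : 2 * C₁ * (E * τ) * ((E * τ) ^ (-(1 / 2 + 2 * κ)) * (1 + E * τ) ^ (-(3 : ℝ))) ≤
      2 * C₁ * (τ ^ (-(1 / 2 + 2 * κ)) * E ^ (-(2 * κ))) := by
    have e5 : E ^ (-(1 / 2 + 2 * κ)) ≤ E ^ (-(2 * κ)) :=
      Real.rpow_le_rpow_of_exponent_le hE (by linarith)
    calc 2 * C₁ * (E * τ) * ((E * τ) ^ (-(1 / 2 + 2 * κ)) * (1 + E * τ) ^ (-(3 : ℝ)))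
        = 2 * C₁ * ((E * τ) ^ (-(1 / 2 + 2 * κ)) * (E * τ * (1 + E * τ) ^ (-(3 : ℝ)))) := by ring
      _ ≤ 2 * C₁ * ((E * τ) ^ (-(1 / 2 + 2 * κ)) * 1) := by
          refine mul_le_mul_of_nonneg_left ?_ (by linarith)
          exact mul_le_mul_of_nonneg_left h1X' hxa
      _ = 2 * C₁ * (τ ^ (-(1 / 2 + 2 * κ)) * E ^ (-(1 / 2 + 2 * κ))) := by
          rw [s2]
          ring
      _ ≤ _ := by
          refine mul_le_mul_of_nonneg_left ?_ (by linarith)
          exact mul_le_mul_of_nonneg_left e5 hta.le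
  have h0 : 0 ≤ τ ^ (-(1 / 2 + 2 * κ)) * E ^ (-(2 * κ)) := by positivity
  calc (Real.sqrt (2 * E) + 2 * C₁ * (E * τ)) *
      ((E * τ) ^ (-(1 / 2 + 2 * κ)) * (1 + E * τ) ^ (-(3 : ℝ)))
      = Real.sqrt (2 * E) * ((E * τ) ^ (-(1 / 2 + 2 * κ)) * (1 + E * τ) ^ (-(3 : ℝ))) +
        2 * C₁ * (E * τ) * ((E * τ) ^ (-(1 / 2 + 2 * κ)) * (1 + E * τ) ^ (-(3 : ℝ))) := by ring
    _ ≤ 2 * (τ ^ (-(1 / 2 + 2 * κ)) * E ^ (-(2 * κ))) +
        2 * C₁ * (τ ^ (-(1 / 2 + 2 * κ)) * E ^ (-(2 * κ))) := add_le_add p1 p2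
    _ ≤ _ := by nlinarith

end LSM

variable (k : Type) [Field k] [NumberField k] [IsTotallyReal k]

open Classical in
theorem pf_LSM (hLCN : T_LCN k) (hMIN : T_MIN k) : T_LSM k := by
  obtain ⟨C₀, hC₀, hcard⟩ := hLCN
  obtain ⟨Cm, hCm, hMIN⟩ := hMIN
  intro κ C₁ hκ hκ1 hC₁
  set q : ℝ := (2 : ℝ) ^ (-(2 * κ)) with hq
  have hq0 : 0 < q := Real.rpow_pos_of_pos (by norm_num) _
  have hq1 : q < 1 := Real.rpow_lt_one_of_one_lt_of_neg (by norm_num) (by linarith)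
  have hqi : 1 ≤ (1 - q)⁻¹ := by
    rw [one_le_inv₀ (by linarith)]
    linarith
  have hCC : 1 ≤ C₀ * (4 * C₁) := by nlinarith
  refine ⟨C₀ * (4 * C₁) * (1 - q)⁻¹, by nlinarith, ?_⟩
  intro r m M hr hM hm hdet
  obtain ⟨v₀, hv₀L, hv₀, hv₀m, hmin, hm2⟩ := hMIN r M hr hM
  have hmn : 0 < mn r M := by
    rw [← hv₀m]
    exact LSM.nn_pos r v₀ hr hv₀
  set τ : ℝ := mn r M / m with hτd
  have hτ : 0 < τ := div_pos hmn hm
  set f : V2 k → ℝ := fun u => if u ∈ M ∧ u ∈ Fo k then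
      (nn r u / m) ^ (-(1 / 2 + 2 * κ)) * (1 + nn r u / m) ^ (-(3 : ℝ)) else 0 with hf
  have hFo : ∀ u ∈ Fo k, u ≠ 0 := fun u hu => hu.1
  have hf0 : ∀ v, 0 ≤ f v := by
    intro v
    rw [hf]
    dsimp only
    split_ifs with h
    · have := LSM.nn_pos r v hr (hFo v h.2)
      positivity
    · exact le_rfl
  have hgs : Summable (fun i : ℕ => C₀ * (4 * C₁ * τ ^ (-(1 / 2 + 2 * κ)) * q ^ i)) := by
    refine Summable.mul_left _ (Summable.mul_left _ ?_)
    exact summable_geometric_of_lt_one hq0.le hq1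
  have hsum : ∀ F : Finset (V2 k), ∑ v ∈ F, f v ≤
      C₀ * (4 * C₁) * (1 - q)⁻¹ * (m / mn r M) ^ (1 / 2 + 2 * κ) := by
    intro F
    set F' := F.filter (fun v => v ∈ M ∧ v ∈ Fo k) with hF'
    have hFF : ∑ v ∈ F, f v = ∑ v ∈ F', f v := by
      rw [hF', Finset.sum_filter]
      refine Finset.sum_congr rfl fun v _ => ?_
      rw [hf]
      dsimp only
      by_cases h : v ∈ M ∧ v ∈ Fo k
      · rw [if_pos h, if_pos h]
      · rw [if_neg h, if_neg h]
    set idx : V2 k → ℕ := fun v => Nat.log 2 ⌊nn r v / mn r M⌋₊ with hidx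
    have hfib : ∀ i : ℕ, ∑ v ∈ F'.filter (fun v => idx v = i), f v ≤
        C₀ * (4 * C₁ * τ ^ (-(1 / 2 + 2 * κ)) * q ^ i) := by
      intro i
      set E : ℝ := 2 ^ i with hE
      have hE1 : 1 ≤ E := one_le_pow₀ (by norm_num)
      have hE0 : 0 < E := lt_of_lt_of_le one_pos hE1
      have hEq : E ^ (-(2 * κ)) = q ^ i := by
        rw [hE, hq, ← Real.rpow_natCast, ← Real.rpow_natCast, ← Real.rpow_mul (by norm_num),
          ← Real.rpow_mul (by norm_num), mul_comm]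
      have hmem : ∀ v ∈ F'.filter (fun v => idx v = i), (v ∈ M ∧ v ∈ Fo k) ∧
          E * mn r M ≤ nn r v ∧ nn r v ≤ 2 * E * mn r M := by
        intro v hv
        rw [Finset.mem_filter, hF', Finset.mem_filter] at hv
        obtain ⟨⟨-, hvL⟩, hvi⟩ := hv
        have h1 : 1 ≤ nn r v / mn r M := by
          rw [one_le_div hmn]
          exact hmin v hvL.1 (hFo v hvL.2)
        have h2 : ⌊nn r v / mn r M⌋₊ ≠ 0 := by
          have : 1 ≤ ⌊nn r v / mn r M⌋₊ := Nat.le_floor (by exact_mod_cast h1)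
          omega
        have h3 : 2 ^ i ≤ ⌊nn r v / mn r M⌋₊ := by
          rw [← hvi]
          exact Nat.pow_log_le_self 2 h2
        have h4 : ⌊nn r v / mn r M⌋₊ < 2 ^ (i + 1) := by
          rw [← hvi]
          exact Nat.lt_pow_succ_log_self (by norm_num) _
        refine ⟨hvL, ?_, ?_⟩
        · have h5 : ((2 ^ i : ℕ) : ℝ) ≤ nn r v / mn r M :=
            le_trans (by exact_mod_cast h3) (Nat.floor_le (by linarith))
          rw [le_div_iff₀ hmn] at h5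
          rw [hE]
          push_cast at h5
          exact h5
        · have h5 : nn r v / mn r M < (⌊nn r v / mn r M⌋₊ : ℝ) + 1 := Nat.lt_floor_add_one _
          have h6 : (⌊nn r v / mn r M⌋₊ : ℝ) + 1 ≤ ((2 ^ (i + 1) : ℕ) : ℝ) := by
            exact_mod_cast h4
          have h7 : nn r v / mn r M ≤ 2 * E := by
            refine h5.le.trans (h6.trans ?_)
            rw [hE]
            push_cast
            rw [pow_succ]
            linarith
          rwa [div_le_iff₀ hmn] at h7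
      have hterm : ∀ v ∈ F'.filter (fun v => idx v = i), f v ≤
          (E * τ) ^ (-(1 / 2 + 2 * κ)) * (1 + E * τ) ^ (-(3 : ℝ)) := by
        intro v hv
        obtain ⟨hvL, hlo, -⟩ := hmem v hv
        rw [hf]
        dsimp only
        rw [if_pos hvL]
        have h1 : E * τ ≤ nn r v / m := by
          rw [hτd, ← mul_div_assoc]
          exact div_le_div_of_nonneg_right hlo hm.le
        have h0 : 0 < E * τ := mul_pos hE0 hτ
        refine mul_le_mul ?_ ?_ (Real.rpow_nonneg (by linarith) _) (Real.rpow_nonneg h0.le _)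
        · exact Real.rpow_le_rpow_of_nonpos h0 h1 (by linarith)
        · exact Real.rpow_le_rpow_of_nonpos (by linarith) (by linarith) (by norm_num)
      have hc : ((F'.filter (fun v => idx v = i)).card : ℝ) ≤
          C₀ * (Real.sqrt (2 * E) + 2 * C₁ * (E * τ)) := by
        have h1 := hcard r (m / C₁) (2 * E * mn r M) M (F'.filter (fun v => idx v = i)) hr hM
          (div_pos hm (by linarith))
          (fun u hu v hv hd => by
            rw [div_le_iff₀ (by linarith), mul_comm]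
            exact hdet u hu v hv hd)
          (by nlinarith) (fun v hv => ⟨(hmem v hv).1.1, (hmem v hv).1.2, (hmem v hv).2.2⟩)
        have h2 : 2 * E * mn r M / mn r M = 2 * E := by
          field_simp
        have h3 : 2 * E * mn r M / (m / C₁) = 2 * C₁ * (E * τ) := by
          rw [hτd]
          field_simp
        rwa [h2, h3] at h1
      have hG0 : 0 ≤ (E * τ) ^ (-(1 / 2 + 2 * κ)) * (1 + E * τ) ^ (-(3 : ℝ)) := by positivity
      calc ∑ v ∈ F'.filter (fun v => idx v = i), f v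
          ≤ (F'.filter (fun v => idx v = i)).card •
            ((E * τ) ^ (-(1 / 2 + 2 * κ)) * (1 + E * τ) ^ (-(3 : ℝ))) :=
            Finset.sum_le_card_nsmul _ _ _ hterm
        _ = ((F'.filter (fun v => idx v = i)).card : ℝ) *
            ((E * τ) ^ (-(1 / 2 + 2 * κ)) * (1 + E * τ) ^ (-(3 : ℝ))) := nsmul_eq_mul _ _
        _ ≤ (C₀ * (Real.sqrt (2 * E) + 2 * C₁ * (E * τ))) *
            ((E * τ) ^ (-(1 / 2 + 2 * κ)) * (1 + E * τ) ^ (-(3 : ℝ))) :=
            mul_le_mul_of_nonneg_right hc hG0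
        _ = C₀ * ((Real.sqrt (2 * E) + 2 * C₁ * (E * τ)) *
            ((E * τ) ^ (-(1 / 2 + 2 * κ)) * (1 + E * τ) ^ (-(3 : ℝ)))) := by ring
        _ ≤ C₀ * (4 * C₁ * τ ^ (-(1 / 2 + 2 * κ)) * E ^ (-(2 * κ))) :=
            mul_le_mul_of_nonneg_left (LSM.shell κ C₁ τ E hκ hC₁ hτ hE1) (by linarith)
        _ = _ := by rw [hEq]
    rw [hFF, ← Finset.sum_fiberwise_of_maps_to (s := F') (t := F'.image idx) (g := idx)
      (fun v hv => Finset.mem_image_of_mem idx hv)]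
    calc ∑ i ∈ F'.image idx, ∑ v ∈ F'.filter (fun v => idx v = i), f v
        ≤ ∑ i ∈ F'.image idx, C₀ * (4 * C₁ * τ ^ (-(1 / 2 + 2 * κ)) * q ^ i) :=
          Finset.sum_le_sum fun i _ => hfib i
      _ ≤ ∑' i : ℕ, C₀ * (4 * C₁ * τ ^ (-(1 / 2 + 2 * κ)) * q ^ i) :=
          hgs.sum_le_tsum _ (fun i _ => by positivity)
      _ = C₀ * (4 * C₁ * τ ^ (-(1 / 2 + 2 * κ)) * (1 - q)⁻¹) := by
          rw [tsum_mul_left, tsum_mul_left, tsum_geometric_of_lt_one hq0.le hq1]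
      _ = C₀ * (4 * C₁) * (1 - q)⁻¹ * (m / mn r M) ^ (1 / 2 + 2 * κ) := by
          have h1 : (m / mn r M) ^ (1 / 2 + 2 * κ) = τ ^ (-(1 / 2 + 2 * κ)) := by
            rw [Real.rpow_neg hτ.le, ← Real.inv_rpow hτ.le, hτd, inv_div]
          rw [h1]
          ring
  exact ⟨summable_of_sum_le hf0 hsum, Real.tsum_le_of_sum_le hf0 hsum⟩

end Pool.Agent.H45.CM4
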