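import Pool.Agent.H89.CM4.Targets2

/-!
`MP_52e316_nt`, fourth moment over the CM extensions: row QCB (the metric with complex parameters).
-/

set_option autoImplicit false

open MeasureTheory Set Filter NumberField NumberField.InfinitePlace Pool.Agent.H65.CM4
  Pool.Agent.H89.CM4
open scoped Real

namespace Pool.Agent.H45.CM4

theorem QCB_fac (a b x1 x2 y1 y2 : ℝ) :
    ((a : ℂ) + b * (⟨x1, x2⟩ : ℂ)) ^ 2 + ((b : ℂ) * (⟨y1, y2⟩ : ℂ)) ^ 2 =
      ((⟨a + b * x1, b * y1⟩ : ℂ) + b * (⟨-y2, x2⟩ : ℂ)) *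
        ((⟨a + b * x1, -(b * y1)⟩ : ℂ) + b * (⟨y2, x2⟩ : ℂ)) := by
  apply Complex.ext
  · simp [pow_two]; ring
  · simp [pow_two]; ring

theorem QCB_err (e1 e2 e3 : ℂ) (δ : ℝ) (hδ : δ ≤ 1 / 4) (h1 : ‖e1‖ ≤ δ) (h2 : ‖e2‖ ≤ δ)
    (h3 : ‖e3‖ ≤ δ) : 1 + e3 ≠ 0 ∧ ‖(1 + e1) * (1 + e2) / (1 + e3) - 1‖ ≤ 5 * δ := by
  have hδ0 : 0 ≤ δ := (norm_nonneg _).trans h1
  have h4 : 3 / 4 ≤ ‖1 + e3‖ := by
    have := norm_sub_norm_le (1 : ℂ) (-e3)
    rw [norm_neg, norm_one, sub_neg_eq_add] at this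
    linarith
  have h5 : 1 + e3 ≠ 0 := by
    intro h
    rw [h, norm_zero] at h4
    linarith
  refine ⟨h5, ?_⟩
  have e : (1 + e1) * (1 + e2) / (1 + e3) - 1 = (e1 + e2 + e1 * e2 - e3) / (1 + e3) := by
    field_simp
    ring
  rw [e, norm_div, div_le_iff₀ (by linarith)]
  have h6 : ‖e1 + e2 + e1 * e2 - e3‖ ≤ ‖e1‖ + ‖e2‖ + ‖e1‖ * ‖e2‖ + ‖e3‖ := by
    refine (norm_sub_le _ _).trans ?_
    refine add_le_add ((norm_add_le _ _).trans ?_) le_rfl
    rw [norm_mul]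
    exact add_le_add (norm_add_le _ _) le_rfl
  have h7 : ‖e1‖ * ‖e2‖ ≤ δ * δ := mul_le_mul h1 h2 (norm_nonneg _) hδ0
  nlinarith

theorem QCB_one (B K T r a b : ℝ) (x y : ℂ) (hB : 1 ≤ B) (hT : 1 ≤ T) (hK : 8 * B ≤ K)
    (hr : 0 < r) (hx : |x.re| < B * r) (hy : r / B < y.re) (hy2 : y.re < B * r)
    (hx3 : K * T * |x.im| < r) (hy3 : K * T * |y.im| < r) :
    ∃ (H : ℝ) (e : ℂ), qc x y a b = (H : ℂ) * (1 + e) ∧ ‖e‖ ≤ 10 * B / (K * T) ∧ 0 ≤ H ∧
      a ^ 2 / r + r * b ^ 2 ≤ 10 * B ^ 5 * H ∧ H ≤ 2 * B ^ 3 * (a ^ 2 / r + r * b ^ 2) := by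
  obtain ⟨x1, x2⟩ := x
  obtain ⟨y1, y2⟩ := y
  simp only at hx hy hy2 hx3 hy3
  have hB0 : 0 < B := by linarith
  have hK0 : 0 < K := by linarith
  have hT0 : 0 < T := by linarith
  have hKT : 0 < K * T := by positivity
  have hrB : r ≤ B * y1 := by
    rw [div_lt_iff₀ hB0] at hy
    linarith
  have hy1 : 0 < y1 := by
    have : 0 < r / B := by positivity
    linarith
  obtain ⟨Z, hZ⟩ : ∃ Z, Z = (a + b * x1) ^ 2 + (b * y1) ^ 2 := ⟨_, rfl⟩
  have hZ0 : 0 ≤ Z := by rw [hZ]; positivity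
  have hB1 : 1 ≤ B ^ 2 := one_le_pow₀ hB
  have hB4 : 1 ≤ B ^ 4 := one_le_pow₀ hB
  have hB24 : B ^ 2 ≤ B ^ 4 := pow_le_pow_right₀ hB (by norm_num)
  have hx1 : x1 ^ 2 ≤ B ^ 2 * r ^ 2 := by
    rw [← sq_abs x1, ← mul_pow]
    exact pow_le_pow_left₀ (abs_nonneg _) hx.le 2
  -- the comparison with the metric
  have hbr : b ^ 2 * r ^ 2 ≤ B ^ 2 * Z := by
    have h1 : r ^ 2 ≤ B ^ 2 * y1 ^ 2 := by
      rw [← mul_pow]
      exact pow_le_pow_left₀ hr.le hrB 2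
    have h2 : b ^ 2 * r ^ 2 ≤ b ^ 2 * (B ^ 2 * y1 ^ 2) := mul_le_mul_of_nonneg_left h1 (sq_nonneg _)
    have h3 : (b * y1) ^ 2 ≤ Z := by rw [hZ]; linarith [sq_nonneg (a + b * x1)]
    have h4 : B ^ 2 * (b * y1) ^ 2 ≤ B ^ 2 * Z := mul_le_mul_of_nonneg_left h3 (by positivity)
    calc b ^ 2 * r ^ 2 ≤ b ^ 2 * (B ^ 2 * y1 ^ 2) := h2
      _ = B ^ 2 * (b * y1) ^ 2 := by ring
      _ ≤ _ := h4
  have ha2 : a ^ 2 ≤ 2 * Z + 2 * (b ^ 2 * (B ^ 2 * r ^ 2)) := by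
    have h1 : b ^ 2 * x1 ^ 2 ≤ b ^ 2 * (B ^ 2 * r ^ 2) := mul_le_mul_of_nonneg_left hx1 (sq_nonneg _)
    have h2 : (a + b * x1) ^ 2 ≤ Z := by rw [hZ]; linarith [sq_nonneg (b * y1)]
    nlinarith [sq_nonneg (a + 2 * (b * x1))]
  have hlow : a ^ 2 + r ^ 2 * b ^ 2 ≤ 5 * B ^ 4 * Z := by
    have h1 : b ^ 2 * (B ^ 2 * r ^ 2) ≤ B ^ 4 * Z := by
      have := mul_le_mul_of_nonneg_left hbr (by positivity : 0 ≤ B ^ 2)
      calc b ^ 2 * (B ^ 2 * r ^ 2) = B ^ 2 * (b ^ 2 * r ^ 2) := by ring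
        _ ≤ B ^ 2 * (B ^ 2 * Z) := this
        _ = _ := by ring
    have h2 : B ^ 2 * Z ≤ B ^ 4 * Z := mul_le_mul_of_nonneg_right hB24 hZ0
    have h3 : Z ≤ B ^ 4 * Z := le_mul_of_one_le_left hZ0 hB4
    nlinarith
  have hup : Z ≤ 3 * B ^ 2 * (a ^ 2 + r ^ 2 * b ^ 2) := by
    have h1 : b ^ 2 * x1 ^ 2 ≤ b ^ 2 * (B ^ 2 * r ^ 2) := mul_le_mul_of_nonneg_left hx1 (sq_nonneg _)
    have h2 : y1 ^ 2 ≤ B ^ 2 * r ^ 2 := by
      rw [← mul_pow]
      exact pow_le_pow_left₀ hy1.le hy2.le 2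
    have h3 : b ^ 2 * y1 ^ 2 ≤ b ^ 2 * (B ^ 2 * r ^ 2) := mul_le_mul_of_nonneg_left h2 (sq_nonneg _)
    have h4 : a ^ 2 ≤ B ^ 2 * a ^ 2 := le_mul_of_one_le_left (sq_nonneg _) hB1
    have h5 : (a + b * x1) ^ 2 ≤ 2 * a ^ 2 + 2 * (b ^ 2 * x1 ^ 2) := by
      nlinarith [sq_nonneg (a - b * x1)]
    have h6 : (b * y1) ^ 2 = b ^ 2 * y1 ^ 2 := by ring
    have h7 : 3 * B ^ 2 * (a ^ 2 + r ^ 2 * b ^ 2) =
      3 * (B ^ 2 * a ^ 2) + 3 * (b ^ 2 * (B ^ 2 * r ^ 2)) := by ring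
    rw [hZ, h6, h7]
    nlinarith [sq_nonneg a]
  have hnr : a ^ 2 / r + r * b ^ 2 = (a ^ 2 + r ^ 2 * b ^ 2) / r := by field_simp
  have hH1 : a ^ 2 / r + r * b ^ 2 ≤ 10 * B ^ 5 * (Z / (2 * y1)) := by
    have h1 : 10 * B ^ 5 * (Z / (2 * y1)) = (5 * B ^ 4 * Z) * (B / y1) := by field_simp; ring
    have h2 : (a ^ 2 + r ^ 2 * b ^ 2) / r = (a ^ 2 + r ^ 2 * b ^ 2) * (1 / r) := by ring
    rw [hnr, h1, h2]
    refine mul_le_mul hlow ?_ (by positivity) (by positivity)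
    rw [div_le_div_iff₀ hr hy1]
    linarith
  have hH2 : Z / (2 * y1) ≤ 2 * B ^ 3 * (a ^ 2 / r + r * b ^ 2) := by
    have h1 : 2 * B ^ 3 * ((a ^ 2 + r ^ 2 * b ^ 2) / r) =
        (4 * B ^ 2 * (a ^ 2 + r ^ 2 * b ^ 2)) * (B / (2 * r)) := by field_simp; ring
    have h2 : Z / (2 * y1) = Z * (1 / (2 * y1)) := by ring
    rw [hnr, h1, h2]
    refine mul_le_mul ?_ ?_ (by positivity) (by positivity)
    · refine hup.trans ?_
      have : 0 ≤ B ^ 2 * (a ^ 2 + r ^ 2 * b ^ 2) := by positivity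
      linarith
    · rw [div_le_div_iff₀ (by positivity) (by positivity)]
      linarith
  have hy1C : (y1 : ℂ) ≠ 0 := by exact_mod_cast hy1.ne'
  -- the error
  set δ : ℝ := 2 * B / (K * T) with hδ
  have hδ4 : δ ≤ 1 / 4 := by
    rw [hδ, div_le_div_iff₀ hKT (by norm_num)]
    have : K ≤ K * T := le_mul_of_one_le_right hK0.le hT
    linarith
  have hx4 : (|y2| + |x2|) / y1 ≤ δ := by
    rw [hδ, div_le_div_iff₀ hy1 hKT]
    nlinarith
  have hy4 : |y2| / y1 ≤ δ := by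
    refine le_trans ?_ hx4
    gcongr
    linarith [abs_nonneg x2]
  have h3 : ‖((⟨0, y2 / y1⟩ : ℂ))‖ ≤ δ := by
    refine (Complex.norm_le_abs_re_add_abs_im _).trans ?_
    simp only [abs_zero, zero_add, abs_div, abs_of_pos hy1]
    exact hy4
  by_cases hz : Z = 0
  · refine ⟨0, 0, ?_, ?_, le_rfl, ?_, ?_⟩
    · have h4 : b * y1 = 0 := by
        have : (b * y1) ^ 2 ≤ 0 := by
          have := sq_nonneg (a + b * x1)
          linarith
        nlinarith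
      have h5 : b = 0 := (mul_eq_zero.1 h4).resolve_right hy1.ne'
      have h6 : a = 0 := by
        rw [h5] at hZ
        have : a ^ 2 = 0 := by
          rw [hz] at hZ
          linarith
        exact pow_eq_zero_iff two_ne_zero |>.1 this
      rw [h5, h6]
      simp [qc]
    · rw [norm_zero]; positivity
    · rw [hz] at hH1; simpa using hH1
    · positivity
  · have hZp : 0 < Z := lt_of_le_of_ne hZ0 (Ne.symm hz)
    obtain ⟨z, hzz⟩ : ∃ z : ℂ, z = ⟨a + b * x1, b * y1⟩ := ⟨_, rfl⟩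
    obtain ⟨z', hzz'⟩ : ∃ z : ℂ, z = ⟨a + b * x1, -(b * y1)⟩ := ⟨_, rfl⟩
    have hprod : z * z' = (Z : ℂ) := by
      rw [hzz, hzz']
      apply Complex.ext
      · rw [Complex.ofReal_re, Complex.mul_re, hZ]; ring
      · rw [Complex.ofReal_im, Complex.mul_im]; ring
    have hn : ‖z‖ = Real.sqrt Z := by
      rw [hzz, Complex.norm_def, Complex.normSq_mk, hZ]
      congr 1
      ring
    have hn' : ‖z'‖ = Real.sqrt Z := by
      rw [hzz', Complex.norm_def, Complex.normSq_mk, hZ]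
      congr 1
      ring
    have hs : 0 < Real.sqrt Z := Real.sqrt_pos.2 hZp
    have hz0 : z ≠ 0 := by
      intro h
      rw [h, norm_zero] at hn
      linarith
    have hz0' : z' ≠ 0 := by
      intro h
      rw [h, norm_zero] at hn'
      linarith
    have hb : |b| ≤ Real.sqrt Z / y1 := by
      rw [le_div_iff₀ hy1, ← abs_of_pos hy1, ← abs_mul]
      apply Real.abs_le_sqrt
      rw [hZ]
      linarith [sq_nonneg (a + b * x1)]
    have key : ∀ (w z : ℂ), ‖z‖ = Real.sqrt Z → |w.re| = |y2| → |w.im| = |x2| →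
        ‖(b : ℂ) * w / z‖ ≤ δ := by
      intro w z hz hw1 hw2
      rw [norm_div, norm_mul, hz, div_le_iff₀ hs, Complex.norm_real, Real.norm_eq_abs]
      have h1 := Complex.norm_le_abs_re_add_abs_im w
      rw [hw1, hw2] at h1
      calc |b| * ‖w‖ ≤ (Real.sqrt Z / y1) * (|y2| + |x2|) :=
            mul_le_mul hb h1 (norm_nonneg _) (by positivity)
        _ = ((|y2| + |x2|) / y1) * Real.sqrt Z := by ring
        _ ≤ δ * Real.sqrt Z := mul_le_mul_of_nonneg_right hx4 hs.le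
    have h1 := key ⟨-y2, x2⟩ z hn (by simp) (by simp)
    have h2 := key ⟨y2, x2⟩ z' hn' (by simp) (by simp)
    obtain ⟨h5, h6⟩ := QCB_err _ _ _ δ hδ4 h1 h2 h3
    refine ⟨Z / (2 * y1), (1 + (b : ℂ) * ⟨-y2, x2⟩ / z) * (1 + (b : ℂ) * ⟨y2, x2⟩ / z') /
        (1 + ⟨0, y2 / y1⟩) - 1, ?_, ?_, by positivity, hH1, hH2⟩
    · unfold qc
      rw [QCB_fac, ← hzz, ← hzz']
      have e3 : (⟨y1, y2⟩ : ℂ) = y1 * (1 + ⟨0, y2 / y1⟩) := by
        apply Complex.ext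
        · simp
        · simp
          field_simp
      have e1 : z + b * (⟨-y2, x2⟩ : ℂ) = z * (1 + (b : ℂ) * ⟨-y2, x2⟩ / z) := by
        field_simp
      have e2 : z' + b * (⟨y2, x2⟩ : ℂ) = z' * (1 + (b : ℂ) * ⟨y2, x2⟩ / z') := by
        field_simp
      rw [e1, e2, e3, add_sub_cancel]
      push_cast
      rw [← hprod]
      field_simp
    · refine h6.trans (le_of_eq ?_)
      rw [hδ]
      ring

variable (k : Type) [Field k] [NumberField k] [IsTotallyReal k]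

theorem pf_QCB (hNRD : T_NRD k) : T_QCB k := by
  classical
  intro B hB
  set N : ℝ := (Fintype.card (Pl k) : ℝ) with hN
  have hN0 : 0 ≤ N := by rw [hN]; positivity
  have hB0 : 0 < B := by linarith
  have hBn : ∀ n : ℕ, 1 ≤ B ^ n := fun n => one_le_pow₀ hB
  set c0 : ℝ := (10 * B ^ 5)⁻¹ with hc0
  set C0 : ℝ := 2 * B ^ 3 with hC0
  have hc0p : 0 < c0 := by rw [hc0]; positivity
  have hc01 : c0 ≤ 1 := by
    rw [hc0]
    apply inv_le_one_of_one_le₀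
    linarith [hBn 5]
  have hC01 : 1 ≤ C0 := by rw [hC0]; linarith [hBn 3]
  have hK8 : 8 * B ≤ 400 * (N + 1) * B := by
    nlinarith [mul_nonneg hN0 hB0.le]
  refine ⟨400 * (N + 1) * B, c0 ^ Fintype.card (Pl k) * (19 / 20),
    C0 ^ Fintype.card (Pl k) * (21 / 20), by linarith, by positivity, ?_, ?_, ?_⟩
  · have : c0 ^ Fintype.card (Pl k) ≤ 1 := pow_le_one₀ hc0p.le hc01
    linarith
  · have : 1 ≤ C0 ^ Fintype.card (Pl k) := one_le_pow₀ hC01
    linarith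
  intro r t x y u hr hR hu
  set T : ℝ := 1 + |t| with hT
  have hT1 : 1 ≤ T := by rw [hT]; linarith [abs_nonneg t]
  have hT0 : 0 < T := by linarith
  have h1 : ∀ v : Pl k, ∃ (H : ℝ) (e : ℂ),
      qc (x v) (y v) (rv v (u.1 : k)) (rv v (u.2 : k)) = (H : ℂ) * (1 + e) ∧
      ‖e‖ ≤ 10 * B / (400 * (N + 1) * B * T) ∧ 0 ≤ H ∧ nr r v u ≤ 10 * B ^ 5 * H ∧
      H ≤ 2 * B ^ 3 * nr r v u := by
    intro v
    obtain ⟨h2, h3, h4, h5, h6⟩ := hR v
    exact QCB_one B (400 * (N + 1) * B) T r _ _ (x v) (y v) hB hT1 hK8 hr h2 h3 h4 h5 h6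
  choose H e he1 he2 he3 he4 he5 using h1
  have hnr : ∀ v : Pl k, 0 < nr r v u := fun v => ((hNRD r u u hr).2.1 hu).2 v
  have hq : qn x y u = ((∏ v : Pl k, H v : ℝ) : ℂ) * ∏ v : Pl k, (1 + e v) := by
    unfold qn
    rw [Complex.ofReal_prod, ← Finset.prod_mul_distrib]
    exact Finset.prod_congr rfl fun v _ => he1 v
  have hHp : ∀ v : Pl k, 0 < H v := by
    intro v
    have := he4 v
    have h2 := hnr v
    by_contra hc
    push Not at hc
    have h3 : 10 * B ^ 5 * H v ≤ 0 := mul_nonpos_of_nonneg_of_nonpos (by positivity) hc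
    linarith
  have hP0 : 0 < ∏ v : Pl k, H v := Finset.prod_pos fun v _ => hHp v
  have hP1 : c0 ^ Fintype.card (Pl k) * nn r u ≤ ∏ v : Pl k, H v := by
    have e1 : c0 ^ Fintype.card (Pl k) * nn r u = ∏ v : Pl k, (c0 * nr r v u) := by
      unfold nn
      rw [Finset.prod_mul_distrib, Finset.prod_const, Finset.card_univ]
    rw [e1]
    refine Finset.prod_le_prod (fun v _ => ?_) (fun v _ => ?_)
    · exact mul_nonneg hc0p.le (hnr v).le
    · rw [hc0, inv_mul_le_iff₀ (by positivity)]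
      exact he4 v
  have hP2 : ∏ v : Pl k, H v ≤ C0 ^ Fintype.card (Pl k) * nn r u := by
    have e1 : C0 ^ Fintype.card (Pl k) * nn r u = ∏ v : Pl k, (C0 * nr r v u) := by
      unfold nn
      rw [Finset.prod_mul_distrib, Finset.prod_const, Finset.card_univ]
    rw [e1]
    exact Finset.prod_le_prod (fun v _ => he3 v) (fun v _ => he5 v)
  have hE : ‖∏ v : Pl k, (1 + e v) - 1‖ ≤ 1 / (20 * T) := by
    have h2 := Finset.norm_prod_one_add_sub_one_le (Finset.univ : Finset (Pl k)) e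
    have h3 : ∑ v : Pl k, ‖e v‖ ≤ 1 / (40 * T) := by
      calc ∑ v : Pl k, ‖e v‖ ≤ ∑ _v : Pl k, 10 * B / (400 * (N + 1) * B * T) :=
            Finset.sum_le_sum fun v _ => he2 v
        _ = N * (10 * B / (400 * (N + 1) * B * T)) := by
            rw [Finset.sum_const, Finset.card_univ, nsmul_eq_mul, hN]
        _ = (N / (N + 1)) * (1 / (40 * T)) := by
            have : N + 1 ≠ 0 := by positivity
            field_simp
            ring
        _ ≤ 1 * (1 / (40 * T)) := by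
            refine mul_le_mul_of_nonneg_right ?_ (by positivity)
            rw [div_le_one (by positivity)]
            linarith
        _ = _ := one_mul _
    have h4 : 0 ≤ ∑ v : Pl k, ‖e v‖ := Finset.sum_nonneg fun v _ => norm_nonneg _
    have h5 : 1 / (40 * T) ≤ 1 := by
      rw [div_le_one (by positivity)]
      linarith
    have h6 := Real.abs_exp_sub_one_le (x := ∑ v : Pl k, ‖e v‖) (by
      rw [abs_of_nonneg h4]; linarith)
    rw [abs_of_nonneg h4] at h6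
    have h7 := (le_abs_self _).trans h6
    calc ‖∏ v : Pl k, (1 + e v) - 1‖ ≤ Real.exp (∑ v : Pl k, ‖e v‖) - 1 := h2
      _ ≤ 2 * ∑ v : Pl k, ‖e v‖ := h7
      _ ≤ 2 * (1 / (40 * T)) := by linarith
      _ = _ := by
        field_simp
        norm_num
  set p : ℂ := ∏ v : Pl k, (1 + e v) with hp
  set P : ℝ := ∏ v : Pl k, H v with hP
  have hre : |p.re - 1| ≤ 1 / (20 * T) := by
    have := Complex.abs_re_le_norm (p - 1)
    rw [Complex.sub_re, Complex.one_re] at this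
    exact this.trans hE
  have him : |p.im| ≤ 1 / (20 * T) := by
    have := Complex.abs_im_le_norm (p - 1)
    rw [Complex.sub_im, Complex.one_im, sub_zero] at this
    exact this.trans hE
  have h20 : 1 / (20 * T) ≤ 1 / 20 := by
    apply one_div_le_one_div_of_le (by norm_num)
    linarith
  have hre1 : 19 / 20 ≤ p.re := by linarith [(abs_le.1 hre).1]
  have hre2 : p.re ≤ 21 / 20 := by linarith [(abs_le.1 hre).2]
  have him1 : 10 * T * |p.im| ≤ 1 / 2 := by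
    calc 10 * T * |p.im| ≤ 10 * T * (1 / (20 * T)) :=
          mul_le_mul_of_nonneg_left him (by positivity)
      _ = 1 / 2 := by field_simp; norm_num
  have hqr : (qn x y u).re = P * p.re := by rw [hq, Complex.re_ofReal_mul]
  have hqi : (qn x y u).im = P * p.im := by rw [hq, Complex.im_ofReal_mul]
  have hnn : 0 ≤ nn r u := by
    unfold nn
    exact Finset.prod_nonneg fun v _ => (hnr v).le
  rw [hqr, hqi]
  refine ⟨by positivity, ?_, ?_, ?_⟩
  · rw [abs_mul, abs_of_pos hP0]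
    calc 10 * T * (P * |p.im|) = P * (10 * T * |p.im|) := by ring
      _ ≤ P * (1 / 2) := mul_le_mul_of_nonneg_left him1 hP0.le
      _ ≤ P * p.re := mul_le_mul_of_nonneg_left (by linarith) hP0.le
  · calc c0 ^ Fintype.card (Pl k) * (19 / 20) * nn r u
        = (c0 ^ Fintype.card (Pl k) * nn r u) * (19 / 20) := by ring
      _ ≤ P * p.re := mul_le_mul hP1 hre1 (by norm_num) hP0.le
  · calc P * p.re ≤ (C0 ^ Fintype.card (Pl k) * nn r u) * (21 / 20) :=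
          mul_le_mul hP2 hre2 (by linarith) (by positivity)
      _ = _ := by ring

end Pool.Agent.H45.CM4
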